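import Pool.Agent.Helper46.T6.Defs

set_option autoImplicit false

/-!
MP_2f9829_co, general degree `d`: statements of the analytic modules (replica form, Haar average on
`O(d)`, gauge fixing, Laplace method, all moments). Module `X` proves `ST_X`, with the statements of
the modules it uses as hypotheses.
-/

open Finset MeasureTheory Filter Topology

namespace Pool.Agent.Helper46.T6

open Pool.Agent.Helper15.T4 (IsPM PM cov IsMat nsq po)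
open Pool.Agent.Helper15.T6

/-! ### Group A: maximum and maximisers (from the core of helper87) -/

/-- PMAX: the maximum on complex vectors. -/
def ST_PMAX : Prop := ∀ d : ℕ, 1 ≤ d → ∀ (J : Type) [Fintype J] [DecidableEq J] (k : ℕ),
  Fintype.card J = 2 * k → ∀ x : (J → Fin d) → ℂ,
  ‖PJ J x‖ ^ 2 ≤ (qd d ^ k) ^ 2 * (∑ a, ‖x a‖ ^ 2) ^ d

/-- PMAXR (from PMAX): the maximum on real vectors. -/
def ST_PMAXR : Prop := ∀ d : ℕ, 1 ≤ d → ∀ (J : Type) [Fintype J] [DecidableEq J] (k : ℕ),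
  Fintype.card J = 2 * k → ∀ x : (J → Fin d) → ℝ, (PJ J x) ^ 2 ≤ (qd d ^ k) ^ 2 * nsq x ^ d

/-- UNIQ: the real maximisers. -/
def ST_UNIQ : Prop := ∀ d : ℕ, 3 ≤ d → ∀ (K : ℕ) (J : Type) [Fintype J] [DecidableEq J],
  Fintype.card J = 2 * K → ∀ x : (J → Fin d) → ℝ, nsq x = 1 → |PJ J x| = qd d ^ K →
  ∃ (s : ℤˣ) (φ : Fin K × Fin 2 ≃ J) (O : Fin K → Md d), (∀ p, OD (O p)) ∧
    ∀ a, x a = ((s : ℤ) : ℝ) * pt φ O a

/-- PTV: the values at the products. -/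
def ST_PTV : Prop := ∀ d : ℕ, 2 ≤ d → ∀ (K : ℕ) (J : Type) [Fintype J] [DecidableEq J]
  (φ : Fin K × Fin 2 ≃ J) (O O' : Fin K → Md d), (∀ p, OD (O p)) →
  PJ J (pt φ O) = (∏ p, (O p).det) * qd d ^ K ∧ nsq (pt φ O) = 1 ∧
  ip (pt φ O) (pt φ O') = ∏ p, ((O p).transpose * O' p).trace / d

/-- SEP: a product determines the matching, and the factors up to signs. -/
def ST_SEP : Prop := ∀ d : ℕ, 2 ≤ d → ∀ (K : ℕ) (J : Type) [Fintype J] [DecidableEq J]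
  (φ φ' : Fin K × Fin 2 ≃ J) (O O' : Fin K → Md d) (s : ℝ), (∀ p, OD (O p)) → (∀ p, OD (O' p)) →
  (s = 1 ∨ s = -1) → (∀ a, pt φ O a = s * pt φ' O' a) →
  ∃ (e : Equiv.Perm (Fin K)) (fl : Fin K → Fin 2) (c : Fin K → ℝ),
    (∀ p i, φ (p, i) = φ' (e p, i + fl p)) ∧ (∀ p, c p = 1 ∨ c p = -1) ∧ ∏ p, c p = s ∧
    ∀ p, O p = c p • (if fl p = 0 then O' (e p) else (O' (e p)).transpose)

/-! ### Group Q: the Haar average -/

/-- AVI: invariance under multiplications, permutations and transpositions; total mass. -/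
def ST_AVI : Prop := ∀ (d K : ℕ) (G : (Fin K → Md d) → ℝ), Continuous G →
  (∀ A B : Fin K → Md d, (∀ p, OD (A p)) → (∀ p, OD (B p)) →
    AVd d K (fun O => G (fun p => A p * O p * B p)) = AVd d K G) ∧
  (∀ (e : Equiv.Perm (Fin K)) (fl : Fin K → Fin 2),
    AVd d K (fun O => G (fun p => if fl p = 0 then O (e p) else (O (e p)).transpose)) = AVd d K G) ∧
  AVd d K (fun _ => 1) = 1

/-- The measure of the ball with squared radius `r` around the unit matrix. -/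
noncomputable def vb (d : ℕ) (r : ℝ) : ℝ := (hO d).real {O : GO d | nsqm ((O : Md d) - 1) ≤ r}

/-- DBL: volume doubling and lower bound. -/
def ST_DBL : Prop := ∀ d : ℕ, (∃ C : ℝ, ∀ r : ℝ, 0 < r → vb d (4 * r) ≤ C * vb d r) ∧
  ∃ (c : ℝ) (E : ℕ), 0 < c ∧ ∀ r : ℝ, 0 < r → r ≤ 1 → c * r ^ E ≤ vb d r

/-- TIGHT (from DBL): concentration at the scale `1 / √N`; comparison of different exponents. -/
def ST_TIGHT : Prop := ∀ d : ℕ, 1 ≤ d →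
  (∀ N : ℕ, 0 < psiN d N ∧ psiN d N ≤ 1) ∧
  (∀ c η : ℝ, 0 < c → 0 < η → ∃ R : ℝ, ∀ N : ℕ, 1 ≤ N →
    ∫ O : GO d, (if R / N ≤ nsqm ((O : Md d) - 1) then
      Real.exp (-c * N * nsqm ((O : Md d) - 1)) else 0) ∂(hO d) ≤ η * psiN d N) ∧
  (∀ c : ℝ, 0 < c → ∃ C : ℝ, ∀ N : ℕ, 1 ≤ N →
    ∫ O : GO d, Real.exp (-c * N * nsqm ((O : Md d) - 1)) ∂(hO d) ≤ C * psiN d N) ∧
  (∃ (c : ℝ) (E : ℕ), 0 < c ∧ ∀ N : ℕ, 1 ≤ N → c / (N : ℝ) ^ E ≤ psiN d N) ∧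
  ∀ R : ℝ, 0 < R → ∃ c : ℝ, 0 < c ∧ ∀ N : ℕ, 1 ≤ N → c * psiN d N ≤ vb d (R / N)

/-! ### Group F: the group action and the gauge fixing -/

/-- ACTT: the `d`-linear form under the action. -/
def ST_ACTT : Prop := ∀ (R : Type) [CommRing R] (d : ℕ) (J : Type) [Fintype J] [DecidableEq J]
  (A : J → Matrix (Fin d) (Fin d) R) (x : Fin d → (J → Fin d) → R),
  TJ J (fun i => act A (x i)) = (∏ j, (A j).det) * TJ J x

/-- ACTM: composition, unit, adjoint, products. -/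
def ST_ACTM : Prop := (∀ (R : Type) [CommRing R] (d : ℕ) (J : Type) [Fintype J] [DecidableEq J]
    (A B : J → Matrix (Fin d) (Fin d) R) (x : (J → Fin d) → R),
    act A (act B x) = act (fun j => A j * B j) x ∧
    act (fun _ : J => (1 : Matrix (Fin d) (Fin d) R)) x = x) ∧
  (∀ (d : ℕ) (J : Type) [Fintype J] [DecidableEq J] (A : J → Md d) (x y : (J → Fin d) → ℝ),
    ip (act A x) y = ip x (act (fun j => (A j).transpose) y)) ∧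
  ∀ (d K : ℕ) (J : Type) [Fintype J] [DecidableEq J] (A : J → Md d) (φ : Fin K × Fin 2 ≃ J)
    (O : Fin K → Md d),
    act A (pt φ O) = pt φ (fun p => A (φ (p, 0)) * O p * (A (φ (p, 1))).transpose)

/-- PERMT: permutations of the replicas. -/
def ST_PERMT : Prop := ∀ (R : Type) [CommRing R] (d : ℕ) (J J' : Type) [Fintype J] [DecidableEq J]
  [Fintype J'] [DecidableEq J'] (e : J ≃ J') (x : Fin d → (J → Fin d) → R),
  TJ J' (fun i a => x i (a ∘ e)) = TJ J x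

/-- ACTV (from ACTM): orthogonal actions and permutations preserve integrals. -/
def ST_ACTV : Prop := (∀ (d : ℕ) (J : Type) [Fintype J] [DecidableEq J] (A : J → Md d)
    (F : ((J → Fin d) → ℝ) → ℝ), (∀ j, OD (A j)) → ∫ x, F (act A x) = ∫ x, F x) ∧
  ∀ (d : ℕ) (J : Type) [Fintype J] [DecidableEq J] (π : Equiv.Perm J)
    (F : ((J → Fin d) → ℝ) → ℝ), ∫ x : (J → Fin d) → ℝ, F (fun a => x (a ∘ π)) = ∫ x, F x

/-- PSC: continuity, positivity, bound. -/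
def ST_PSC : Prop := ∀ d K N : ℕ, Continuous (Psid d K N) ∧ (∀ x, 0 < Psid d K N x) ∧
  ∀ x, Psid d K N x ≤ 2 * ((2 * K).factorial : ℝ)

/-- PSINV (from AVI, ACTM): invariance of `Psid`. -/
def ST_PSINV : Prop := ∀ (d K N : ℕ) (x : (Fin K × Fin 2 → Fin d) → ℝ),
  (∀ A : Fin K × Fin 2 → Md d, (∀ j, OD (A j)) → Psid d K N (act A x) = Psid d K N x) ∧
  (∀ π : Equiv.Perm (Fin K × Fin 2), Psid d K N (fun a => x (a ∘ π)) = Psid d K N x) ∧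
  Psid d K N (fun a => -x a) = Psid d K N x

/-- FPI (from PSINV, PSC, ACTT, ACTM, PERMT, ACTV, AVI): the gauge fixing identity. -/
def ST_FPI : Prop := ∀ d K N : ℕ, 1 ≤ d → 0 < N → ∫ y, fvd d K y ^ (2 * N) =
  2 * ((2 * K).factorial : ℝ) *
    ∫ y, fvd d K y ^ (2 * N) * Real.exp (-(N : ℝ) * nsq (fun a => y a - u0 d K a)) / Psid d K N y

/-! ### Group H: the Hessian -/

/-- EBO: `ebd` is an orthonormal basis. -/
def ST_EBO : Prop := ∀ d : ℕ, 1 ≤ d → ∀ K : ℕ,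
  (∀ b c : Fin K → BB d, ip (ebd b) (ebd c) = if b = c then 1 else 0) ∧
  (∀ h : (Fin K × Fin 2 → Fin d) → ℝ, nsq h = ∑ b : Fin K → BB d, ip (ebd b) h ^ 2) ∧
  ebd (b0 : Fin K → BB d) = u0 d K

/-- EBT: `ebd` diagonalises the form at the peak. -/
def ST_EBT : Prop := ∀ d : ℕ, 2 ≤ d → ∀ (K : ℕ) (b : Fin K → BB d)
  (h : (Fin K × Fin 2 → Fin d) → ℝ),
  TD2 (Fin K × Fin 2) (u0 d K) (ebd b) h = qd d ^ K * (∏ p, mud (b p)) * ip (ebd b) h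

/-- HES (from EBO, EBT): the Hessian in the basis. -/
def ST_HES : Prop := ∀ d : ℕ, 3 ≤ d → ∀ K : ℕ, ∀ h : (Fin K × Fin 2 → Fin d) → ℝ,
  Qd d K h = ∑ b : Fin K → BB d, evd b * ip (ebd b) h ^ 2 ∧
  (d : ℝ) * (d - 2) / (d - 1) * (nsq h - tqd d K h) ≤ Qd d K h ∧
  tqd d K h ≤ nsq h ∧ 0 ≤ tqd d K h

/-- EXPD (from EBT): expansion at the peak. -/
def ST_EXPD : Prop := ∀ d : ℕ, 2 ≤ d → ∀ K : ℕ, ∃ C : ℝ,
  ∀ h : (Fin K × Fin 2 → Fin d) → ℝ, nsq h ≤ 1 →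
  |fvd d K (fun a => u0 d K a + h a) - (1 - Qd d K h / 2)| ≤ C * Real.sqrt (nsq h) ^ 3

/-- TANP (from EBO): the tangential part. -/
def ST_TANP : Prop := ∀ d : ℕ, 1 ≤ d → ∀ K : ℕ,
  (∀ h : (Fin K × Fin 2 → Fin d) → ℝ, ∃ β : Fin K → Md d, (∀ p, (β p).transpose = -β p) ∧
    (∑ p, nsqm (β p)) / d = tqd d K h ∧
    nsq (fun a => h a - Lmd β a) = nsq h - tqd d K h ∧
    tqd d K (fun a => h a - Lmd β a) = 0) ∧
  (∀ β : Fin K → Md d, (∀ p, (β p).transpose = -β p) →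
    nsq (Lmd β) = (∑ p, nsqm (β p)) / d ∧ tqd d K (Lmd β) = nsq (Lmd β)) ∧
  ∀ g : (Fin K × Fin 2 → Fin d) → ℝ, tqd d K g = 0 → ∀ β : Fin K → Md d,
    (∀ p, (β p).transpose = -β p) → ip g (Lmd β) = 0

/-- LOC: first order expansion of the orbit at the peak. -/
def ST_LOC : Prop := ∀ d : ℕ, 1 ≤ d → ∀ K : ℕ, ∃ C : ℝ, 0 < C ∧ ∀ O : Fin K → Md d, (∀ p, OD (O p)) →
  nsq (fun a => pt (Equiv.refl _) O a - u0 d K a -
      Lmd (fun p => (1 / 2 : ℝ) • (O p - (O p).transpose)) a) ≤ C * (∑ p, nsqm (O p - 1)) ^ 2 ∧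
  nsq (fun a => pt (Equiv.refl _) O a - u0 d K a) ≤ C * ∑ p, nsqm (O p - 1)

/-- EXPB: orthogonal matrices with a given tangent vector (Cayley transform). -/
def ST_EXPB : Prop := ∀ d : ℕ, ∃ C : ℝ, 0 < C ∧ ∀ β : Md d, β.transpose = -β → nsqm β ≤ 1 →
  ∃ B : Md d, OD B ∧ nsqm (B - 1 - β) ≤ C * nsqm β ^ 2 ∧ nsqm (B - 1) ≤ C * nsqm β

/-- MOVE (from TANP, LOC, EXPB, ACTM): the tangential part is removed by an orthogonal action. -/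
def ST_MOVE : Prop := ∀ d : ℕ, 1 ≤ d → ∀ K : ℕ, ∃ C r : ℝ, 0 < C ∧ 0 < r ∧
  ∀ h : (Fin K × Fin 2 → Fin d) → ℝ, nsq h ≤ r →
  ∃ (A : Fin K × Fin 2 → Md d) (g e : (Fin K × Fin 2 → Fin d) → ℝ), (∀ j, OD (A j)) ∧
    act A (fun a => u0 d K a + h a) = (fun a => u0 d K a + g a + e a) ∧
    tqd d K g = 0 ∧ nsq g = nsq h - tqd d K h ∧ nsq e ≤ C * nsq h ^ 2

/-! ### Group L: the Laplace method -/

/-- NEAR (from LOC, TANP): the exponent near the peak, for a normal displacement `g` and an error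
`e`. -/
def ST_NEAR : Prop := ∀ d : ℕ, 1 ≤ d → ∀ K : ℕ, ∃ C : ℝ, 0 < C ∧
  ∀ (g e : (Fin K × Fin 2 → Fin d) → ℝ) (O : Fin K → Md d), tqd d K g = 0 → (∀ p, OD (O p)) →
  |nsq (fun a => u0 d K a + g a + e a - pt (Equiv.refl _) O a) -
      (nsq (fun a => g a + e a) + nsq (fun a => pt (Equiv.refl _) O a - u0 d K a))| ≤
    C * (Real.sqrt (nsq g) * (∑ p, nsqm (O p - 1)) +
      Real.sqrt (nsq e) * Real.sqrt (∑ p, nsqm (O p - 1)))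

/-- DISTP (from PTV): distance to the peak. -/
def ST_DISTP : Prop := ∀ d : ℕ, 1 ≤ d → ∀ (K : ℕ) (O : Fin K → Md d), (∀ p, OD (O p)) →
  nsq (fun a => pt (Equiv.refl _) O a - u0 d K a) = 2 - 2 * ∏ p, (O p).trace / d ∧
  (∀ p, nsqm (O p - 1) = 2 * d - 2 * (O p).trace) ∧
  |nsq (fun a => pt (Equiv.refl _) O a - u0 d K a) - (∑ p, nsqm (O p - 1)) / d| ≤
    (∑ p, nsqm (O p - 1)) ^ 2

/-- LOW1 (from LOC, DBL): global lower bound. -/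
def ST_LOW1 : Prop := ∀ d : ℕ, 1 ≤ d → ∀ K : ℕ, ∃ (c : ℝ) (E : ℕ), 0 < c ∧ ∀ N : ℕ, 1 ≤ N →
  ∀ x : (Fin K × Fin 2 → Fin d) → ℝ, c / (N : ℝ) ^ E *
    Real.exp (-(N : ℝ) * nsq (fun a => x a - u0 d K a) -
      2 * Real.sqrt (nsq (fun a => x a - u0 d K a))) ≤ Psid d K N x

/-- LOW2 (from MOVE, NEAR, PSINV, LOC, TIGHT): local lower bound. -/
def ST_LOW2 : Prop := ∀ d : ℕ, 1 ≤ d → ∀ K : ℕ, ∃ c r C : ℝ, 0 < c ∧ 0 < r ∧ ∀ N : ℕ, 1 ≤ N →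
  ∀ h : (Fin K × Fin 2 → Fin d) → ℝ, nsq h ≤ r →
  c * psiN d N ^ K *
    Real.exp (-(N : ℝ) * (nsq h - tqd d K h) - C * N * Real.sqrt (nsq h) ^ 3) ≤
      Psid d K N (fun a => u0 d K a + h a)

/-- Permutations that preserve the standard matching. -/
def Blk {K : ℕ} (π : Equiv.Perm (Fin K × Fin 2)) : Prop :=
  ∀ p, (π (p, 0)).1 = (π (p, 1)).1

/-- COMP (from SEP): the other matchings are far from the peak; on the standard matching only the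
signs are near the peak. -/
def ST_COMP : Prop := ∀ d : ℕ, 2 ≤ d → ∀ K : ℕ,
  (∃ δ : ℝ, 0 < δ ∧ ∀ (s : ℤˣ) (π : Equiv.Perm (Fin K × Fin 2)) (O : Fin K → Md d),
    (∀ p, OD (O p)) → ¬ Blk π → δ ≤ nsq (fun a => u0 d K a - ((s : ℤ) : ℝ) * pt π O a)) ∧
  ∀ ρ : ℝ, 0 < ρ → ∃ δ : ℝ, 0 < δ ∧ ∀ (s : ℤˣ) (O : Fin K → Md d), (∀ p, OD (O p)) →
    (∀ c : Fin K → ℤˣ, ∏ p, c p = s → ∃ p, ρ ≤ nsqm (O p - ((c p : ℤ) : ℝ) • 1)) →
    δ ≤ nsq (fun a => u0 d K a - ((s : ℤ) : ℝ) * pt (Equiv.refl _) O a)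

open Classical in
/-- BLKN: their number. -/
def ST_BLKN : Prop := ∀ K : ℕ, (univ.filter (fun π : Equiv.Perm (Fin K × Fin 2) => Blk π)).card =
  2 ^ K * K.factorial

/-- LIM0 (from NEAR, DISTP, TIGHT, COMP, AVI): the standard matching, normal displacements of order
`1 / √N`. -/
def ST_LIM0 : Prop := ∀ d : ℕ, 2 ≤ d → ∀ (K : ℕ) (g e : ℕ → (Fin K × Fin 2 → Fin d) → ℝ) (C G : ℝ),
  (∀ N, tqd d K (g N) = 0) → (∀ N : ℕ, 1 ≤ N → nsq (g N) ≤ C / N) →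
  (∀ N : ℕ, 1 ≤ N → nsq (e N) ≤ C / (N : ℝ) ^ 2) →
  Tendsto (fun N : ℕ => (N : ℝ) * nsq (g N)) atTop (𝓝 G) →
  Tendsto (fun N : ℕ => (∑ s : ℤˣ, AVd d K (fun O => Real.exp (-(N : ℝ) *
      nsq (fun a => u0 d K a + g N a + e N a - ((s : ℤ) : ℝ) * pt (Equiv.refl _) O a)))) /
        psiN d N ^ K) atTop (𝓝 (2 ^ K * Real.exp (-G)))

/-- LIM (from LIM0, MOVE, PSINV, COMP, BLKN, AVI, TIGHT): the limit of `Psid`. -/
def ST_LIM : Prop := ∀ d : ℕ, 2 ≤ d → ∀ (K : ℕ) (t : (Fin K × Fin 2 → Fin d) → ℝ),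
  Tendsto (fun N : ℕ => Real.exp (nsq t / 2) *
    Psid d K N (fun a => u0 d K a + t a / Real.sqrt (2 * N)) / psiN d N ^ K) atTop
  (𝓝 (4 ^ K * (K.factorial : ℝ) * Real.exp (tqd d K t / 2)))

/-- OUT (from LOW1, PSINV, ACTM, PMAXR, UNIQ, PTV): the region far from the peak. -/
def ST_OUT : Prop := ∀ d : ℕ, 3 ≤ d → ∀ (K : ℕ) (r : ℝ), 0 < r → ∃ c C : ℝ, 0 < c ∧
  ∀ N : ℕ, 1 ≤ N →
  Integrable (fun y => fvd d K y ^ (2 * N) *
    Real.exp (-(N : ℝ) * nsq (fun a => y a - u0 d K a)) / Psid d K N y) ∧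
  ∫ y in {y : (Fin K × Fin 2 → Fin d) → ℝ | r ≤ nsq (fun a => y a - u0 d K a)},
    fvd d K y ^ (2 * N) * Real.exp (-(N : ℝ) * nsq (fun a => y a - u0 d K a)) / Psid d K N y ≤
      C * Real.exp (-c * N)

/-- LAPF (from OUT, LIM, LOW2, EXPD, HES, PSC, TIGHT): the Laplace method. -/
def ST_LAPF : Prop := ∀ d : ℕ, 3 ≤ d → ∀ K : ℕ, Tendsto (fun N : ℕ =>
  (2 * (N : ℝ)) ^ (((d : ℝ) ^ (2 * K)) / 2) * psiN d N ^ K *
    ∫ y, fvd d K y ^ (2 * N) * Real.exp (-(N : ℝ) * nsq (fun a => y a - u0 d K a)) /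
      Psid d K N y) atTop
  (𝓝 ((4 ^ K * (K.factorial : ℝ))⁻¹ * ∫ t, Real.exp (-(Qd d K t + tqd d K t) / 2)))

open Classical in
/-- GINT (from HES, EBO): the Gaussian integral. -/
def ST_GINT : Prop := ∀ d : ℕ, 3 ≤ d → ∀ K : ℕ, ∫ t, Real.exp (-(Qd d K t + tqd d K t) / 2) =
  (2 * Real.pi) ^ ((d : ℝ) ^ (2 * K) / 2) *
    ∏ b : Fin K → BB d, (Real.sqrt (evd b + if b ∈ Tand d K then 1 else 0))⁻¹

open Classical in
/-- PRD: the product over the eigenvalues. -/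
def ST_PRD : Prop := ∀ d : ℕ, 3 ≤ d → ∀ K : ℕ,
  (d : ℝ) ^ ((d : ℝ) ^ (2 * K) / 2) *
    ∏ b : Fin K → BB d, (Real.sqrt (evd b + if b ∈ Tand d K then 1 else 0))⁻¹ =
  (Real.sqrt 2)⁻¹ * ((2 : ℝ) ^ (-(((d : ℝ) * (d + 1) / 2 - 1) / 2)) *
    (d : ℝ) ^ ((d : ℝ) * (d - 1) / 4)) ^ K *
    Real.exp (∑' k : ℕ, lam d k * (tau d k ^ K - 1 - K * (tau d k - 1)))

/-- SCAL: scaling of the Gaussian integral. -/
def ST_SCAL : Prop := ∀ d : ℕ, 1 ≤ d → ∀ K N : ℕ, 0 < N →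
  GR (fun x : (Fin K × Fin 2 → Fin d) → ℝ => PJ (Fin K × Fin 2) x ^ (2 * N)) =
    ((d : ℝ) * (N : ℝ) / Real.pi) ^ ((d : ℝ) ^ (2 * K) / 2) * NFd d N * (qd d ^ (2 * K)) ^ N *
      ∫ y, fvd d K y ^ (2 * N)

/-- TOT (from FPI, LAPF, GINT, PRD, SCAL, TIGHT): all moments. -/
def ST_TOT : Prop := ∀ d : ℕ, 3 ≤ d → (∀ N : ℕ, 1 ≤ N → 0 < sNd d N) ∧
  ∀ K : ℕ, Tendsto (fun N : ℕ =>
    GR (fun x : (Fin K × Fin 2 → Fin d) → ℝ => PJ (Fin K × Fin 2) x ^ (2 * N)) /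
      (NFd d N * sNd d N ^ K)) atTop (𝓝 (Real.sqrt 2 * mom d K))

end Pool.Agent.Helper46.T6
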