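import Pool.Agent.Helper15.T6.Defs

set_option autoImplicit false

/-!
MP_2f9829_co: for every `d ≥ 3` almost all `d`-regular graphs of even order satisfy the list edge
colouring conjecture. Definitions for the replica model (general degree `d`): labels `J → Fin d`,
`card J = 2 K`, vertex polynomial = `K`-th Kronecker power of `d! det` on the `d × d` matrices.
-/

open Finset MeasureTheory Filter Topology TopologicalSpace

namespace Pool.Agent.Helper46.T6

open Pool.Agent.Helper15.T4 (IsPM PM cov IsMat nsq po)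
open Pool.Agent.Helper15.T6

/-- Squared norm of a matrix. -/
def nsqm {d : ℕ} (A : Md d) : ℝ := ∑ i, ∑ j, A i j ^ 2

/-- Orthogonal matrices. -/
def OD {d : ℕ} (O : Md d) : Prop := O * O.transpose = 1

/-! ### The Haar probability of the orthogonal group -/

/-- The orthogonal group. -/
abbrev GO (d : ℕ) : Type := Matrix.orthogonalGroup (Fin d) ℝ

theorem isCompact_GO (d : ℕ) : IsCompact ((Matrix.orthogonalGroup (Fin d) ℝ : Set (Md d))) := by
  have hc : IsCompact (Set.pi Set.univ (fun _ : Fin d => Set.pi Set.univ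
      (fun _ : Fin d => Set.Icc (-1 : ℝ) 1)) : Set (Md d)) :=
    isCompact_univ_pi (fun _ => isCompact_univ_pi (fun _ => isCompact_Icc))
  refine hc.of_isClosed_subset ?_ ?_
  · have : ((Matrix.orthogonalGroup (Fin d) ℝ : Set (Md d))) = {A : Md d | A * star A = 1} := by
      ext A
      exact Matrix.mem_orthogonalGroup_iff (Fin d) ℝ
    rw [this]
    exact isClosed_eq (by fun_prop) continuous_const
  · intro A hA
    simp only [Set.mem_pi, Set.mem_univ, Set.mem_Icc, forall_true_left]
    intro i j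
    have h := entry_norm_bound_of_unitary hA i j
    rw [Real.norm_eq_abs] at h
    exact abs_le.mp h

instance instCompactGO (d : ℕ) : CompactSpace (GO d) :=
  isCompact_iff_compactSpace.mp (isCompact_GO d)

instance instSCMd (d : ℕ) : SecondCountableTopology (Md d) :=
  inferInstanceAs (SecondCountableTopology (Fin d → Fin d → ℝ))

instance instSCGO (d : ℕ) : SecondCountableTopology (GO d) :=
  TopologicalSpace.Subtype.secondCountableTopology _

noncomputable instance instMSGO (d : ℕ) : MeasurableSpace (GO d) := borel _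

instance instBSGO (d : ℕ) : BorelSpace (GO d) := ⟨rfl⟩

/-- The Haar probability of the orthogonal group. -/
noncomputable def hO (d : ℕ) : Measure (GO d) := Measure.haarMeasure ⊤

instance instPMhO (d : ℕ) : IsProbabilityMeasure (hO d) := ⟨by
  unfold hO
  have := Measure.haarMeasure_self (G := GO d) (K₀ := ⊤)
  simpa using this⟩

instance instHMhO (d : ℕ) : (hO d).IsHaarMeasure := by unfold hO; infer_instance

theorem hO_unique (d : ℕ) (μ : Measure (GO d)) [μ.IsMulLeftInvariant] [IsProbabilityMeasure μ] :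
    μ = hO d := by
  have h2 := Measure.isMulInvariant_eq_smul_of_compactSpace μ (hO d)
  have h3 : μ Set.univ = (Measure.haarScalarFactor μ (hO d) • (hO d)) Set.univ := by rw [← h2]
  rw [measure_univ, Measure.smul_apply, measure_univ] at h3
  have h5 : Measure.haarScalarFactor μ (hO d) = 1 := by
    have h4 : ((Measure.haarScalarFactor μ (hO d) : NNReal) : ENNReal) = 1 := by
      rw [h3]; simp [ENNReal.smul_def]
    exact_mod_cast h4
  rw [h2, h5, one_smul]

instance instRIhO (d : ℕ) : (hO d).IsMulRightInvariant := by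
  constructor
  intro g
  have h1 : (Measure.map (· * g) (hO d)).IsMulLeftInvariant := inferInstance
  have : IsProbabilityMeasure (Measure.map (· * g) (hO d)) :=
    Measure.isProbabilityMeasure_map (by fun_prop)
  exact hO_unique d _

instance instInvhO (d : ℕ) : (hO d).IsInvInvariant := by
  constructor
  have : IsProbabilityMeasure ((hO d).inv) := by
    rw [Measure.inv_def]
    exact Measure.isProbabilityMeasure_map (by fun_prop)
  exact hO_unique d _

/-- Average over `O(d)^K`. -/
noncomputable def AVd (d K : ℕ) (G : (Fin K → Md d) → ℝ) : ℝ :=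
  ∫ O : Fin K → GO d, G (fun p => ((O p : GO d) : Md d)) ∂(Measure.pi fun _ => hO d)

/-- The volume factor. -/
noncomputable def psiN (d N : ℕ) : ℝ :=
  ∫ O : GO d, Real.exp (-(N : ℝ) * nsqm ((O : Md d) - 1) / d) ∂(hO d)

/-- The gauge fixing function. -/
noncomputable def Psid (d K N : ℕ) (x : (Fin K × Fin 2 → Fin d) → ℝ) : ℝ :=
  ∑ s : ℤˣ, ∑ π : Equiv.Perm (Fin K × Fin 2),
    AVd d K (fun O => Real.exp (-(N : ℝ) * nsq (fun a => x a - ((s : ℤ) : ℝ) * pt π O a)))

/-- The normalised vertex function. -/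
noncomputable def fvd (d K : ℕ) (y : (Fin K × Fin 2 → Fin d) → ℝ) : ℝ :=
  PJ (Fin K × Fin 2) y * Real.exp (-((d : ℝ) / 2) * (nsq y - 1)) / qd d ^ K

/-! ### The Hessian -/

/-- Indices of an orthonormal basis of the matrices: scalar, antisymmetric, symmetric off-diagonal,
diagonal traceless. -/
abbrev BB (d : ℕ) : Type :=
  Unit ⊕ {p : Fin d × Fin d // p.1 < p.2} ⊕ {p : Fin d × Fin d // p.1 < p.2} ⊕ Fin (d - 1)

/-- An orthonormal basis of the matrices. -/
noncomputable def Ed {d : ℕ} : BB d → Md d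
  | Sum.inl _ => (Real.sqrt d)⁻¹ • (1 : Md d)
  | Sum.inr (Sum.inl p) => (Real.sqrt 2)⁻¹ •
      (Matrix.single p.1.1 p.1.2 (1 : ℝ) - Matrix.single p.1.2 p.1.1 (1 : ℝ))
  | Sum.inr (Sum.inr (Sum.inl p)) => (Real.sqrt 2)⁻¹ •
      (Matrix.single p.1.1 p.1.2 (1 : ℝ) + Matrix.single p.1.2 p.1.1 (1 : ℝ))
  | Sum.inr (Sum.inr (Sum.inr k)) => (Real.sqrt (((k : ℕ) + 1) * ((k : ℕ) + 2)))⁻¹ •
      Matrix.diagonal (fun i : Fin d => if (i : ℕ) ≤ (k : ℕ) then (1 : ℝ) else
        if (i : ℕ) = (k : ℕ) + 1 then -((k : ℕ) + 1) else 0)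

/-- The eigenvalues. -/
noncomputable def mud {d : ℕ} : BB d → ℝ
  | Sum.inl _ => 1
  | Sum.inr (Sum.inl _) => 1 / ((d : ℝ) - 1)
  | Sum.inr (Sum.inr _) => -(1 / ((d : ℝ) - 1))

/-- The antisymmetric indices. -/
def IsA {d : ℕ} : BB d → Prop
  | Sum.inr (Sum.inl _) => True
  | _ => False

/-- The orthonormal basis of products. -/
noncomputable def ebd {d K : ℕ} (b : Fin K → BB d) : (Fin K × Fin 2 → Fin d) → ℝ :=
  fun a => ∏ p, Ed (b p) (a (p, 0)) (a (p, 1))

/-- The index of the peak. -/
def b0 {d K : ℕ} : Fin K → BB d := fun _ => Sum.inl ()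

/-- The form with the first two arguments `g`, `h` and all others `u`. -/
def TD2 {R : Type} [CommRing R] {d : ℕ} (J : Type) [Fintype J] [DecidableEq J]
    (u g h : (J → Fin d) → R) : R :=
  TJ J (fun i => if (i : ℕ) = 0 then g else if (i : ℕ) = 1 then h else u)

/-- The Hessian at the peak. -/
noncomputable def Qd (d K : ℕ) (h : (Fin K × Fin 2 → Fin d) → ℝ) : ℝ :=
  d * nsq h - d * ((d : ℝ) - 1) * TD2 (Fin K × Fin 2) (u0 d K) h h / qd d ^ K +
    (d : ℝ) ^ 2 * ip (u0 d K) h ^ 2

open Classical in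
/-- The indices of the tangential directions: one antisymmetric factor. -/
noncomputable def Tand (d K : ℕ) : Finset (Fin K → BB d) :=
  univ.filter (fun b => ∃ p, IsA (b p) ∧ ∀ p', p' ≠ p → b p' = Sum.inl ())

/-- Squared length of the tangential part. -/
noncomputable def tqd (d K : ℕ) (h : (Fin K × Fin 2 → Fin d) → ℝ) : ℝ :=
  ∑ b ∈ Tand d K, ip (ebd b) h ^ 2

open Classical in
/-- Eigenvalue of the Hessian. -/
noncomputable def evd {d K : ℕ} (b : Fin K → BB d) : ℝ :=
  d * (1 - ((d : ℝ) - 1) * ∏ p, mud (b p)) + (if b = b0 then (d : ℝ) ^ 2 else 0)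

/-- The tangent vector of the matrices `β p`. -/
noncomputable def Lmd {d K : ℕ} (β : Fin K → Md d) : (Fin K × Fin 2 → Fin d) → ℝ :=
  fun a => ∑ p, (β p (a (p, 0)) (a (p, 1)) / Real.sqrt d) *
    ∏ p' ∈ univ.erase p, (1 : Md d) (a (p', 0)) (a (p', 1)) / Real.sqrt d

/-! ### Constants -/

/-- The normalising factor. -/
noncomputable def NFd (d N : ℕ) : ℝ :=
  (2 * (d : ℝ) * (N : ℝ)) ^ (d * N) * Real.exp (-((d : ℝ) * N))

/-- The scale: the second moment is asymptotic to `sNd`. -/
noncomputable def sNd (d N : ℕ) : ℝ :=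
  (qd d ^ 2) ^ N * ((2 : ℝ) ^ (-(((d : ℝ) * (d + 1) / 2 - 1) / 2)) *
    (d : ℝ) ^ ((d : ℝ) * (d - 1) / 4)) / (2 * psiN d N)

end Pool.Agent.Helper46.T6
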